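import Pool.Agent.Lib.MP_ba0fa5_ag.AA.IfaceA

/-!
# APCORE: the weights in progressions (the log trick)
-/

set_option linter.all false

namespace Pool.Agent.Lib.MP_ba0fa5_ag.AA.H69

open scoped Classical
open Finset

/-! ## the weights -/

lemma dl_nonneg (l : ℕ) : 0 ≤ dl l := by
  unfold dl
  split_ifs <;> norm_num

lemma dl_le (l : ℕ) : dl l ≤ 1 / 2 := by
  unfold dl
  split_ifs <;> norm_num

lemma ws_nonneg (n : ℕ) : 0 ≤ ws n :=
  Finset.prod_nonneg (fun l _ => pow_nonneg (dl_nonneg l) _)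

lemma ws_eq (n : ℕ) : ws n = n.factorization.prod (fun l e => dl l ^ e) := rfl

lemma ws_mul {m n : ℕ} (hm : m ≠ 0) (hn : n ≠ 0) : ws (m * n) = ws m * ws n := by
  rw [ws_eq, ws_eq, ws_eq, Nat.factorization_mul hm hn]
  exact Finsupp.prod_add_index' (fun l => pow_zero _) (fun l a b => pow_add _ _ _)

lemma totient_real (n : ℕ) : (n.totient : ℝ) = n * ∏ p ∈ n.primeFactors, (1 - (p : ℝ)⁻¹) := by
  have h := Nat.totient_eq_mul_prod_factors n
  have h2 : ((n.totient : ℚ) : ℝ) = ((n * ∏ p ∈ n.primeFactors, (1 - (p : ℚ)⁻¹) : ℚ) : ℝ) := by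
    rw [h]
  push_cast at h2
  exact h2

lemma ws_mul_le {n : ℕ} : ws n * n ≤ n.totient := by
  rw [totient_real, mul_comm]
  refine mul_le_mul_of_nonneg_left ?_ (Nat.cast_nonneg _)
  refine Finset.prod_le_prod (fun l _ => pow_nonneg (dl_nonneg l) _) ?_
  intro l hl
  have hp := Nat.prime_of_mem_primeFactors hl
  have he : n.factorization l ≠ 0 := by
    have : l ∈ n.factorization.support := by
      rw [Nat.support_factorization]
      exact hl
    exact Finsupp.mem_support_iff.1 this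
  have h1 : dl l ^ n.factorization l ≤ dl l := by
    refine pow_le_of_le_one (dl_nonneg l) ?_ he
    linarith [dl_le l]
  have h2 : (2 : ℝ) ≤ l := by exact_mod_cast hp.two_le
  have h3 : (l : ℝ)⁻¹ ≤ 1 / 2 := by
    rw [inv_le_comm₀ (by linarith) (by norm_num)]
    linarith
  linarith [dl_le l]

lemma fw_nonneg (n : ℕ) : 0 ≤ fw n := div_nonneg (ws_nonneg n) (Nat.cast_nonneg _)

lemma fw_le {n : ℕ} (hn : 1 ≤ n) : fw n ≤ 1 / n := by
  have h1 : (0 : ℝ) < n.totient := by exact_mod_cast Nat.totient_pos.2 hn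
  have h2 : (0 : ℝ) < n := by exact_mod_cast hn
  unfold fw
  rw [div_le_div_iff₀ h1 h2, one_mul]
  exact ws_mul_le

lemma fw_mul_le {r m : ℕ} (hr : 1 ≤ r) (hm : 1 ≤ m) : fw (r * m) ≤ 1 / r * fw m := by
  have h1 : (0 : ℝ) < r.totient := by exact_mod_cast Nat.totient_pos.2 hr
  have h2 : (0 : ℝ) < m.totient := by exact_mod_cast Nat.totient_pos.2 hm
  have h3 : (r.totient : ℝ) * m.totient ≤ (r * m).totient := by
    exact_mod_cast Nat.totient_super_multiplicative r m
  calc fw (r * m) = ws r * ws m / (r * m).totient := by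
        unfold fw
        rw [ws_mul (by omega) (by omega)]
    _ ≤ ws r * ws m / (r.totient * m.totient) :=
        div_le_div_of_nonneg_left (mul_nonneg (ws_nonneg _) (ws_nonneg _)) (mul_pos h1 h2) h3
    _ = fw r * fw m := by
        unfold fw
        rw [div_mul_div_comm]
    _ ≤ 1 / r * fw m := mul_le_mul_of_nonneg_right (fw_le hr) (fw_nonneg m)

/-! ## sums over a class -/

lemma harm (N : ℕ) (hN : 1 ≤ N) : ∑ j ∈ Icc 1 N, (1 : ℝ) / j ≤ 1 + Real.log N := by
  have h := harmonic_le_one_add_log N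
  have h2 : ((harmonic N : ℚ) : ℝ) = ∑ j ∈ Icc 1 N, (1 : ℝ) / j := by
    rw [harmonic_eq_sum_Icc]
    push_cast
    simp only [one_div]
  rw [← h2]
  exact h

lemma class_sum {q : ℕ} (hq : 1 ≤ q) (M : Finset ℕ) (hM : ∀ m ∈ M, ∀ m' ∈ M, m ≡ m' [MOD q])
    {A : ℝ} (hA : 0 < A) (hAM : ∀ m ∈ M, A ≤ m) {N : ℕ} (hN : 1 ≤ N) (hMN : ∀ m ∈ M, m ≤ N) :
    ∑ m ∈ M, (1 : ℝ) / m ≤ 1 / A + (1 + Real.log N) / q := by
  have hq' : (0 : ℝ) < q := by exact_mod_cast hq
  have hlog : 0 ≤ Real.log N := Real.log_natCast_nonneg N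
  rcases M.eq_empty_or_nonempty with rfl | hne
  · rw [Finset.sum_empty]
    positivity
  · set m0 := M.min' hne with hm0
    have h0 : m0 ∈ M := M.min'_mem hne
    have hle : ∀ m ∈ M, m0 ≤ m := fun m hm => M.min'_le m hm
    rw [← Finset.add_sum_erase M _ h0]
    refine add_le_add ?_ ?_
    · exact one_div_le_one_div_of_le hA (hAM _ h0)
    · have h1 : ∀ m ∈ M.erase m0, ∃ j : ℕ, 1 ≤ j ∧ j ≤ N ∧ m = m0 + q * j := by
        intro m hm
        have hm' := Finset.mem_of_mem_erase hm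
        have hne' := Finset.ne_of_mem_erase hm
        have h2 : q ∣ m - m0 := (Nat.modEq_iff_dvd' (hle m hm')).1 (hM m0 h0 m hm')
        obtain ⟨j, hj⟩ := h2
        have h3 := hle m hm'
        refine ⟨j, ?_, ?_, by omega⟩
        · by_contra h
          have : j = 0 := by omega
          subst this
          omega
        · have h4 := hMN m hm'
          have : j ≤ q * j := Nat.le_mul_of_pos_left j hq
          omega
      have h2 : ∑ m ∈ M.erase m0, (1 : ℝ) / m ≤ ∑ j ∈ Icc 1 N, 1 / ((q : ℝ) * j) := by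
        have hinj : Set.InjOn (fun m => (m - m0) / q) (M.erase m0 : Set ℕ) := by
          intro m hm m' hm' h
          obtain ⟨j, _, _, rfl⟩ := h1 m (Finset.mem_coe.1 hm)
          obtain ⟨j', _, _, rfl⟩ := h1 m' (Finset.mem_coe.1 hm')
          have e1 : (m0 + q * j - m0) / q = j := by
            rw [Nat.add_sub_cancel_left, Nat.mul_div_cancel_left _ hq]
          have e2 : (m0 + q * j' - m0) / q = j' := by
            rw [Nat.add_sub_cancel_left, Nat.mul_div_cancel_left _ hq]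
          change (m0 + q * j - m0) / q = (m0 + q * j' - m0) / q at h
          rw [e1, e2] at h
          rw [h]
        calc ∑ m ∈ M.erase m0, (1 : ℝ) / m
            ≤ ∑ m ∈ M.erase m0, 1 / ((q : ℝ) * ((m - m0) / q : ℕ)) := by
              refine Finset.sum_le_sum (fun m hm => ?_)
              obtain ⟨j, hj1, hj2, rfl⟩ := h1 m hm
              have e1 : (m0 + q * j - m0) / q = j := by
                rw [Nat.add_sub_cancel_left, Nat.mul_div_cancel_left _ hq]
              rw [e1]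
              have hj : (0 : ℝ) < j := by exact_mod_cast hj1
              refine one_div_le_one_div_of_le (by positivity) ?_
              push_cast
              have : (0 : ℝ) ≤ m0 := Nat.cast_nonneg _
              linarith
          _ = ∑ j ∈ (M.erase m0).image (fun m => (m - m0) / q), 1 / ((q : ℝ) * (j : ℕ)) := by
              rw [Finset.sum_image hinj]
          _ ≤ ∑ j ∈ Icc 1 N, 1 / ((q : ℝ) * j) := by
              refine Finset.sum_le_sum_of_subset_of_nonneg ?_ (fun j _ _ => by positivity)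
              intro j hj
              obtain ⟨m, hm, rfl⟩ := Finset.mem_image.1 hj
              obtain ⟨j, hj1, hj2, rfl⟩ := h1 m hm
              have e1 : (m0 + q * j - m0) / q = j := by
                rw [Nat.add_sub_cancel_left, Nat.mul_div_cancel_left _ hq]
              rw [e1]
              exact Finset.mem_Icc.2 ⟨hj1, hj2⟩
      refine h2.trans ?_
      have h3 : ∑ j ∈ Icc 1 N, 1 / ((q : ℝ) * j) = (∑ j ∈ Icc 1 N, (1 : ℝ) / j) / q := by
        rw [Finset.sum_div]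
        refine Finset.sum_congr rfl (fun j _ => ?_)
        rw [div_div, mul_comm]
      rw [h3]
      exact div_le_div_of_nonneg_right (harm N hN) hq'.le

/-! ## the log trick -/

/-- the summation range -/
noncomputable def SY (Y q a : ℕ) : Finset ℕ :=
  (Ioc (Nat.sqrt Y) (Y ^ 3)).filter (fun n => n ≡ a [MOD q])

/-- pairs with product in `SY` -/
noncomputable def TY (Y q a : ℕ) : Finset (ℕ × ℕ) :=
  (Icc 1 (Y ^ 3) ×ˢ Icc 1 (Y ^ 3)).filter (fun x => x.1 * x.2 ∈ SY Y q a)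

lemma mem_SY {Y q a n : ℕ} : n ∈ SY Y q a ↔ (Nat.sqrt Y < n ∧ n ≤ Y ^ 3) ∧ n ≡ a [MOD q] := by
  unfold SY
  rw [Finset.mem_filter, Finset.mem_Ioc]

lemma log_ge {Y n : ℕ} (hY : 1 ≤ Y) (hn : Nat.sqrt Y < n) : Real.log Y / 2 ≤ Real.log n := by
  have h1 : Y < n * n := Nat.sqrt_lt.1 hn
  have h2 : Real.log Y ≤ Real.log ((n : ℝ) * n) := by
    apply Real.log_le_log (by exact_mod_cast hY)
    exact_mod_cast h1.le
  have hn0 : (n : ℝ) ≠ 0 := by
    have : n ≠ 0 := by omega
    exact_mod_cast this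
  rw [Real.log_mul hn0 hn0] at h2
  linarith

lemma step1 {Y q a : ℕ} (hY : 1 ≤ Y) :
    Real.log Y / 2 * ∑ n ∈ SY Y q a, fw n ≤
      ∑ x ∈ TY Y q a, ArithmeticFunction.vonMangoldt x.1 / x.1 * fw x.2 := by
  have h1 : ∀ n ∈ SY Y q a, 1 ≤ n := by
    intro n hn
    have := (mem_SY.1 hn).1.1
    omega
  calc Real.log Y / 2 * ∑ n ∈ SY Y q a, fw n = ∑ n ∈ SY Y q a, Real.log Y / 2 * fw n := by
        rw [Finset.mul_sum]
    _ ≤ ∑ n ∈ SY Y q a, Real.log n * fw n := by
        refine Finset.sum_le_sum (fun n hn => ?_)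
        exact mul_le_mul_of_nonneg_right (log_ge hY (mem_SY.1 hn).1.1) (fw_nonneg n)
    _ = ∑ n ∈ SY Y q a, ∑ x ∈ n.divisorsAntidiagonal,
          ArithmeticFunction.vonMangoldt x.1 * fw n := by
        refine Finset.sum_congr rfl (fun n hn => ?_)
        rw [← ArithmeticFunction.vonMangoldt_sum, Finset.sum_mul,
          Nat.sum_divisorsAntidiagonal (fun i _ => ArithmeticFunction.vonMangoldt i * fw n)]
    _ ≤ ∑ n ∈ SY Y q a, ∑ x ∈ n.divisorsAntidiagonal,
          ArithmeticFunction.vonMangoldt x.1 / x.1 * fw x.2 := by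
        refine Finset.sum_le_sum (fun n hn => Finset.sum_le_sum (fun x hx => ?_))
        obtain ⟨hx1, hx2⟩ := Nat.mem_divisorsAntidiagonal.1 hx
        have hn0 := h1 n hn
        have hxa : 1 ≤ x.1 := by
          rcases Nat.eq_zero_or_pos x.1 with h | h
          · rw [h, Nat.zero_mul] at hx1
            omega
          · exact h
        have hxb : 1 ≤ x.2 := by
          rcases Nat.eq_zero_or_pos x.2 with h | h
          · rw [h, Nat.mul_zero] at hx1
            omega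
          · exact h
        rw [← hx1]
        have := mul_le_mul_of_nonneg_left (fw_mul_le hxa hxb)
          (ArithmeticFunction.vonMangoldt_nonneg (n := x.1))
        refine this.trans (le_of_eq ?_)
        ring
    _ = ∑ n ∈ SY Y q a, ∑ x ∈ (TY Y q a).filter (fun x => x.1 * x.2 = n),
          ArithmeticFunction.vonMangoldt x.1 / x.1 * fw x.2 := by
        refine Finset.sum_congr rfl (fun n hn => Finset.sum_congr ?_ (fun _ _ => rfl))
        ext ⟨r, m⟩
        have hn0 := h1 n hn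
        have hn3 := (mem_SY.1 hn).1.2
        rw [Nat.mem_divisorsAntidiagonal, Finset.mem_filter]
        unfold TY
        rw [Finset.mem_filter, Finset.mem_product, Finset.mem_Icc, Finset.mem_Icc]
        constructor
        · rintro ⟨h2, _⟩
          change r * m = n at h2
          have hr : 1 ≤ r := by
            rcases Nat.eq_zero_or_pos r with h | h
            · rw [h, Nat.zero_mul] at h2
              omega
            · exact h
          have hm : 1 ≤ m := by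
            rcases Nat.eq_zero_or_pos m with h | h
            · rw [h, Nat.mul_zero] at h2
              omega
            · exact h
          have hr' : r ≤ r * m := Nat.le_mul_of_pos_right r hm
          have hm' : m ≤ r * m := Nat.le_mul_of_pos_left m hr
          refine ⟨⟨⟨⟨hr, ?_⟩, ⟨hm, ?_⟩⟩, ?_⟩, h2⟩
          · show r ≤ Y ^ 3
            omega
          · show m ≤ Y ^ 3
            omega
          · show r * m ∈ SY Y q a
            rw [h2]
            exact hn
        · rintro ⟨_, h2⟩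
          exact ⟨h2, by omega⟩
    _ = ∑ x ∈ TY Y q a, ArithmeticFunction.vonMangoldt x.1 / x.1 * fw x.2 := by
        refine Finset.sum_fiberwise_of_maps_to (fun x hx => ?_) _
        unfold TY at hx
        exact (Finset.mem_filter.1 hx).2

/-! ## the two parts -/

lemma cop_of_prod {q a n : ℕ} (ha : a.Coprime q) (hn : n ≡ a [MOD q]) : n.Coprime q := by
  unfold Nat.Coprime at ha ⊢
  rw [hn.gcd_eq, ha]

lemma part1 {Y q a : ℕ} (hY : 1 ≤ Y) (hq : 1 ≤ q) (ha : a.Coprime q) :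
    ∑ x ∈ (TY Y q a).filter (fun x => x.1 ≤ q ^ 2),
      ArithmeticFunction.vonMangoldt x.1 / x.1 * fw x.2 ≤
    (1 + Real.log (q ^ 2)) ^ 2 * ((q : ℝ) ^ 2 / Real.sqrt Y + (1 + 3 * Real.log Y) / q) := by
  have hq' : (1 : ℝ) ≤ q := by exact_mod_cast hq
  have hY' : (1 : ℝ) ≤ Y := by exact_mod_cast hY
  have hsY : 0 < Real.sqrt Y := Real.sqrt_pos.2 (by linarith)
  have hlY : 0 ≤ Real.log Y := Real.log_nonneg hY'
  have hlq : 0 ≤ Real.log ((q : ℝ) ^ 2) := Real.log_nonneg (one_le_pow₀ hq')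
  -- inner sums
  have hin : ∀ r : ℕ, 1 ≤ r → r ≤ q ^ 2 →
      ∑ m ∈ (Icc 1 (Y ^ 3)).filter (fun m => r * m ∈ SY Y q a), fw m ≤
        (q : ℝ) ^ 2 / Real.sqrt Y + (1 + 3 * Real.log Y) / q := by
    intro r hr hrq
    have hr0 : (0 : ℝ) < r := by exact_mod_cast hr
    have h1 : ∑ m ∈ (Icc 1 (Y ^ 3)).filter (fun m => r * m ∈ SY Y q a), fw m ≤
        ∑ m ∈ (Icc 1 (Y ^ 3)).filter (fun m => r * m ∈ SY Y q a), (1 : ℝ) / m := by
      refine Finset.sum_le_sum (fun m hm => ?_)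
      exact fw_le (Finset.mem_Icc.1 (Finset.mem_filter.1 hm).1).1
    have hY3 : 1 ≤ Y ^ 3 := Nat.one_le_pow _ _ hY
    have h2 := class_sum hq ((Icc 1 (Y ^ 3)).filter (fun m => r * m ∈ SY Y q a)) (by
      intro m hm m' hm'
      have e1 := (mem_SY.1 (Finset.mem_filter.1 hm).2).2
      have e2 := (mem_SY.1 (Finset.mem_filter.1 hm').2).2
      have e3 : r.Coprime q := Nat.Coprime.coprime_mul_right (cop_of_prod ha e1)
      exact Nat.ModEq.cancel_left_of_coprime e3.symm (e1.trans e2.symm))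
      (A := Real.sqrt Y / r) (by positivity) (by
      intro m hm
      have e1 := (mem_SY.1 (Finset.mem_filter.1 hm).2).1.1
      rw [div_le_iff₀ hr0]
      have e2 : Y < (r * m) * (r * m) := Nat.sqrt_lt.1 e1
      have e3 : (Y : ℝ) ≤ ((m : ℝ) * r) ^ 2 := by
        have : (Y : ℝ) ≤ ((r * m : ℕ) : ℝ) * ((r * m : ℕ) : ℝ) := by exact_mod_cast e2.le
        push_cast at this
        nlinarith [this]
      calc Real.sqrt Y ≤ Real.sqrt (((m : ℝ) * r) ^ 2) := Real.sqrt_le_sqrt e3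
        _ = (m : ℝ) * r := Real.sqrt_sq (by positivity)) hY3 (by
      intro m hm
      exact (Finset.mem_Icc.1 (Finset.mem_filter.1 hm).1).2)
    refine h1.trans (h2.trans ?_)
    refine add_le_add ?_ (le_of_eq ?_)
    · rw [one_div_div]
      refine div_le_div_of_nonneg_right ?_ hsY.le
      exact_mod_cast hrq
    · push_cast
      rw [Real.log_pow]
      norm_num
  -- the sum over `r`
  have hsum : ∑ x ∈ (TY Y q a).filter (fun x => x.1 ≤ q ^ 2),
      ArithmeticFunction.vonMangoldt x.1 / x.1 * fw x.2 ≤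
      ∑ r ∈ Icc 1 (q ^ 2), ArithmeticFunction.vonMangoldt r / r *
        ∑ m ∈ (Icc 1 (Y ^ 3)).filter (fun m => r * m ∈ SY Y q a), fw m := by
    have e1 : ∑ r ∈ Icc 1 (q ^ 2), ArithmeticFunction.vonMangoldt r / r *
        ∑ m ∈ (Icc 1 (Y ^ 3)).filter (fun m => r * m ∈ SY Y q a), fw m =
        ∑ x ∈ (Icc 1 (q ^ 2) ×ˢ Icc 1 (Y ^ 3)).filter (fun x => x.1 * x.2 ∈ SY Y q a),
          ArithmeticFunction.vonMangoldt x.1 / x.1 * fw x.2 := by
      rw [Finset.sum_filter, Finset.sum_product]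
      refine Finset.sum_congr rfl (fun r _ => ?_)
      rw [Finset.mul_sum, Finset.sum_filter]
    rw [e1]
    refine Finset.sum_le_sum_of_subset_of_nonneg ?_ ?_
    · rintro ⟨r, m⟩ hx
      rw [Finset.mem_filter] at hx
      unfold TY at hx
      rw [Finset.mem_filter, Finset.mem_product, Finset.mem_Icc, Finset.mem_Icc] at hx
      rw [Finset.mem_filter, Finset.mem_product, Finset.mem_Icc, Finset.mem_Icc]
      exact ⟨⟨⟨hx.1.1.1.1, hx.2⟩, hx.1.1.2⟩, hx.1.2⟩
    · intro x _ _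
      exact mul_nonneg (div_nonneg ArithmeticFunction.vonMangoldt_nonneg (Nat.cast_nonneg _))
        (fw_nonneg _)
  refine hsum.trans ?_
  have hB : 0 ≤ (q : ℝ) ^ 2 / Real.sqrt Y + (1 + 3 * Real.log Y) / q := by positivity
  have h3 : ∑ r ∈ Icc 1 (q ^ 2), ArithmeticFunction.vonMangoldt r / r ≤
      (1 + Real.log (q ^ 2)) ^ 2 := by
    calc ∑ r ∈ Icc 1 (q ^ 2), ArithmeticFunction.vonMangoldt r / r
        ≤ ∑ r ∈ Icc 1 (q ^ 2), (1 + Real.log (q ^ 2)) * (1 / r) := by
          refine Finset.sum_le_sum (fun r hr => ?_)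
          rw [Finset.mem_Icc] at hr
          have e1 : ArithmeticFunction.vonMangoldt r ≤ 1 + Real.log (q ^ 2) := by
            have e2 := ArithmeticFunction.vonMangoldt_le_log (n := r)
            have e3 : Real.log r ≤ Real.log ((q : ℝ) ^ 2) := by
              apply Real.log_le_log (by exact_mod_cast hr.1)
              exact_mod_cast hr.2
            linarith
          rw [div_eq_mul_one_div]
          exact mul_le_mul_of_nonneg_right e1 (by positivity)
      _ = (1 + Real.log (q ^ 2)) * ∑ r ∈ Icc 1 (q ^ 2), (1 : ℝ) / r := by rw [Finset.mul_sum]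
      _ ≤ (1 + Real.log (q ^ 2)) * (1 + Real.log (q ^ 2)) := by
          refine mul_le_mul_of_nonneg_left ?_ (by linarith)
          have := harm (q ^ 2) (Nat.one_le_pow _ _ hq)
          push_cast at this
          exact this
      _ = (1 + Real.log (q ^ 2)) ^ 2 := by ring
  calc ∑ r ∈ Icc 1 (q ^ 2), ArithmeticFunction.vonMangoldt r / r *
        ∑ m ∈ (Icc 1 (Y ^ 3)).filter (fun m => r * m ∈ SY Y q a), fw m
      ≤ ∑ r ∈ Icc 1 (q ^ 2), ArithmeticFunction.vonMangoldt r / r *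
        ((q : ℝ) ^ 2 / Real.sqrt Y + (1 + 3 * Real.log Y) / q) := by
        refine Finset.sum_le_sum (fun r hr => ?_)
        rw [Finset.mem_Icc] at hr
        exact mul_le_mul_of_nonneg_left (hin r hr.1 hr.2)
          (div_nonneg ArithmeticFunction.vonMangoldt_nonneg (Nat.cast_nonneg _))
    _ = (∑ r ∈ Icc 1 (q ^ 2), ArithmeticFunction.vonMangoldt r / r) *
        ((q : ℝ) ^ 2 / Real.sqrt Y + (1 + 3 * Real.log Y) / q) := by rw [Finset.sum_mul]
    _ ≤ _ := mul_le_mul_of_nonneg_right h3 hB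

lemma rough_of_coprime {W q m : ℕ} (hW : primorial W ∣ q) (hm : m.Coprime q) : Rgh W m := by
  intro l hl hlm
  by_contra h
  have h1 : l ∣ primorial W := by
    unfold primorial
    apply Finset.dvd_prod_of_mem
    rw [Finset.mem_filter, Finset.mem_range]
    exact ⟨by omega, hl⟩
  have h2 : l ∣ Nat.gcd m q := Nat.dvd_gcd hlm (h1.trans hW)
  rw [hm] at h2
  exact hl.one_lt.ne' (Nat.dvd_one.1 h2)

lemma part2 {C₁ C₂ : ℝ} (hC₁ : 0 < C₁) (hC₂ : 0 < C₂)
    (hu : ∀ W y : ℕ, 3 ≤ W → W ≤ y → ∑ n ∈ (Icc 1 y).filter (fun n => Rgh W n), fw n ≤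
      C₁ * (Real.log y / Real.log W) ^ (5 / 16 : ℝ))
    (hb : ∀ q a y : ℕ, 1 ≤ q → 2 ≤ y → a.Coprime q →
      ∑ n ∈ (Ioc (q ^ 2) y).filter (fun n => n ≡ a [MOD q]),
        ArithmeticFunction.vonMangoldt n / n ≤ C₂ * Real.log y / q.totient)
    {Y q a W : ℕ} (hW : 3 ≤ W) (hY : W ≤ Y) (hq : 1 ≤ q) (hWq : primorial W ∣ q)
    (ha : a.Coprime q) :
    ∑ x ∈ (TY Y q a).filter (fun x => ¬ x.1 ≤ q ^ 2),
      ArithmeticFunction.vonMangoldt x.1 / x.1 * fw x.2 ≤
    C₂ * (3 * Real.log Y) / q.totient *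
      (C₁ * (3 * Real.log Y / Real.log W) ^ (5 / 16 : ℝ)) := by
  have hY1 : 1 ≤ Y := by omega
  have hY3 : Y ≤ Y ^ 3 := by
    calc Y = Y ^ 1 := (pow_one Y).symm
      _ ≤ Y ^ 3 := Nat.pow_le_pow_right hY1 (by norm_num)
  have hlog3 : Real.log ((Y ^ 3 : ℕ) : ℝ) = 3 * Real.log Y := by
    push_cast
    rw [Real.log_pow]
    norm_num
  have hlY : 0 ≤ Real.log Y := Real.log_nonneg (by exact_mod_cast hY1)
  have hphi : (0 : ℝ) < q.totient := by exact_mod_cast Nat.totient_pos.2 hq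
  have hin : ∀ m : ℕ, m.Coprime q →
      ∑ r ∈ (Ioc (q ^ 2) (Y ^ 3)).filter (fun r => r * m ≡ a [MOD q]),
        ArithmeticFunction.vonMangoldt r / r ≤ C₂ * (3 * Real.log Y) / q.totient := by
    intro m hm
    obtain ⟨u, hu1⟩ : ∃ u, m * u ≡ 1 [MOD q] := by
      have h := Int.gcd_eq_gcd_ab m q
      have h2 : Int.gcd m q = 1 := by exact_mod_cast hm
      rw [h2] at h
      refine ⟨(Int.gcdA m q % q).toNat, ?_⟩
      have hq0 : (q : ℤ) ≠ 0 := by exact_mod_cast (by omega : q ≠ 0)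
      have h3 : (((Int.gcdA m q % q).toNat : ℕ) : ℤ) = Int.gcdA m q % q :=
        Int.toNat_of_nonneg (Int.emod_nonneg _ hq0)
      rw [← Int.natCast_modEq_iff]
      push_cast
      rw [h3]
      have h4 : (m : ℤ) * (Int.gcdA m q % q) ≡ m * Int.gcdA m q [ZMOD q] :=
        (Int.ModEq.refl _).mul (Int.mod_modEq _ _)
      refine h4.trans ?_
      have h5 : (m : ℤ) * Int.gcdA m q = 1 - q * Int.gcdB m q := by
        push_cast at h
        linarith
      rw [h5, Int.modEq_iff_dvd]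
      exact ⟨Int.gcdB m q, by ring⟩
    have hcu : u.Coprime q := by
      have : (m * u).Coprime q := by
        unfold Nat.Coprime
        rw [hu1.gcd_eq]
        exact Nat.gcd_one_left q
      exact Nat.Coprime.coprime_mul_left this
    have h1 := hb q (a * u) (Y ^ 3) hq (by omega) (Nat.Coprime.mul_left ha hcu)
    rw [hlog3] at h1
    refine le_trans ?_ h1
    refine Finset.sum_le_sum_of_subset_of_nonneg ?_ ?_
    · intro r hr
      rw [Finset.mem_filter] at hr ⊢
      refine ⟨hr.1, ?_⟩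
      have e1 : r * m * u ≡ a * u [MOD q] := hr.2.mul_right u
      have e2 : r * m * u ≡ r [MOD q] := by
        rw [mul_assoc]
        have := hu1.mul_left r
        rwa [mul_one] at this
      exact e2.symm.trans e1
    · intro r _ _
      exact div_nonneg ArithmeticFunction.vonMangoldt_nonneg (Nat.cast_nonneg _)
  have hA : 0 ≤ C₂ * (3 * Real.log Y) / q.totient := by positivity
  have hsum : ∑ x ∈ (TY Y q a).filter (fun x => ¬ x.1 ≤ q ^ 2),
      ArithmeticFunction.vonMangoldt x.1 / x.1 * fw x.2 ≤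
      ∑ m ∈ (Icc 1 (Y ^ 3)).filter (fun m => m.Coprime q),
        fw m * ∑ r ∈ (Ioc (q ^ 2) (Y ^ 3)).filter (fun r => r * m ≡ a [MOD q]),
          ArithmeticFunction.vonMangoldt r / r := by
    have e1 : ∑ m ∈ (Icc 1 (Y ^ 3)).filter (fun m => m.Coprime q),
        fw m * ∑ r ∈ (Ioc (q ^ 2) (Y ^ 3)).filter (fun r => r * m ≡ a [MOD q]),
          ArithmeticFunction.vonMangoldt r / r =
        ∑ x ∈ (Ioc (q ^ 2) (Y ^ 3) ×ˢ (Icc 1 (Y ^ 3)).filter (fun m => m.Coprime q)).filter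
          (fun x => x.1 * x.2 ≡ a [MOD q]),
          ArithmeticFunction.vonMangoldt x.1 / x.1 * fw x.2 := by
      rw [Finset.sum_filter (s := Ioc (q ^ 2) (Y ^ 3) ×ˢ (Icc 1 (Y ^ 3)).filter
        (fun m => m.Coprime q)), Finset.sum_product_right]
      refine Finset.sum_congr rfl (fun m _ => ?_)
      rw [Finset.mul_sum, Finset.sum_filter]
      refine Finset.sum_congr rfl (fun r _ => ?_)
      split_ifs
      · ring
      · rfl
    rw [e1]
    refine Finset.sum_le_sum_of_subset_of_nonneg ?_ ?_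
    · rintro ⟨r, m⟩ hx
      rw [Finset.mem_filter] at hx
      unfold TY at hx
      rw [Finset.mem_filter, Finset.mem_product, Finset.mem_Icc, Finset.mem_Icc] at hx
      obtain ⟨⟨⟨⟨h1, h2⟩, h3, h4⟩, h5⟩, h6⟩ := hx
      have h7 := (mem_SY.1 h5).2
      have h8 : m.Coprime q := Nat.Coprime.coprime_mul_left (cop_of_prod ha h7)
      rw [Finset.mem_filter, Finset.mem_product, Finset.mem_filter, Finset.mem_Ioc,
        Finset.mem_Icc]
      exact ⟨⟨⟨not_le.1 h6, h2⟩, ⟨h3, h4⟩, h8⟩, h7⟩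
    · intro x _ _
      exact mul_nonneg (div_nonneg ArithmeticFunction.vonMangoldt_nonneg (Nat.cast_nonneg _))
        (fw_nonneg _)
  refine hsum.trans ?_
  calc ∑ m ∈ (Icc 1 (Y ^ 3)).filter (fun m => m.Coprime q),
        fw m * ∑ r ∈ (Ioc (q ^ 2) (Y ^ 3)).filter (fun r => r * m ≡ a [MOD q]),
          ArithmeticFunction.vonMangoldt r / r
      ≤ ∑ m ∈ (Icc 1 (Y ^ 3)).filter (fun m => m.Coprime q),
        fw m * (C₂ * (3 * Real.log Y) / q.totient) := by
        refine Finset.sum_le_sum (fun m hm => ?_)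
        exact mul_le_mul_of_nonneg_left (hin m (Finset.mem_filter.1 hm).2) (fw_nonneg m)
    _ = (C₂ * (3 * Real.log Y) / q.totient) *
        ∑ m ∈ (Icc 1 (Y ^ 3)).filter (fun m => m.Coprime q), fw m := by
        rw [Finset.mul_sum]
        exact Finset.sum_congr rfl (fun m _ => mul_comm _ _)
    _ ≤ (C₂ * (3 * Real.log Y) / q.totient) *
        ∑ m ∈ (Icc 1 (Y ^ 3)).filter (fun m => Rgh W m), fw m := by
        refine mul_le_mul_of_nonneg_left ?_ hA
        refine Finset.sum_le_sum_of_subset_of_nonneg ?_ (fun m _ _ => fw_nonneg m)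
        intro m hm
        rw [Finset.mem_filter] at hm ⊢
        exact ⟨hm.1, rough_of_coprime hWq hm.2⟩
    _ ≤ _ := by
        refine mul_le_mul_of_nonneg_left ?_ hA
        have := hu W (Y ^ 3) hW (by omega)
        rw [hlog3] at this
        exact this

/-! ## the asymptotic estimate -/

lemma asym (k : ℕ) (c : ℝ) (hc : 0 < c) : ∃ L₀ : ℝ, 1 ≤ L₀ ∧ ∀ L : ℝ, L₀ ≤ L →
    2 / L * (1 + 2 * (k * Real.log L)) ^ 2 * (L ^ (3 * k) / Real.exp (L / 2) + (1 + 3 * L)) ≤
      (L / c) ^ (5 / 16 : ℝ) := by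
  have h1 : ∀ᶠ L : ℝ in Filter.atTop, L ^ (3 * k) / Real.exp (L / 2) ≤ 1 := by
    have e1 : Filter.Tendsto (fun L : ℝ => L ^ (3 * k) / Real.exp ((1 / 2) * L)) Filter.atTop
        (nhds 0) := by
      have := (isLittleO_pow_exp_pos_mul_atTop (3 * k) (b := 1 / 2) (by norm_num))
      exact this.tendsto_div_nhds_zero
    filter_upwards [e1.eventually (gt_mem_nhds (by norm_num : (0 : ℝ) < 1))] with L hL
    have : (1 / 2 : ℝ) * L = L / 2 := by ring
    rw [this] at hL
    exact hL.le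
  have hd : 0 < (1 / c) ^ (5 / 32 : ℝ) / 4 := by positivity
  have h2 : ∀ᶠ L : ℝ in Filter.atTop, 1 + 2 * (k * Real.log L) ≤
      (1 / c) ^ (5 / 32 : ℝ) / 4 * L ^ (5 / 32 : ℝ) := by
    have e1 : (fun L : ℝ => 1 + 2 * (k * Real.log L)) =o[Filter.atTop]
        (fun L : ℝ => L ^ (5 / 32 : ℝ)) := by
      have e2 : (fun _ : ℝ => (1 : ℝ)) =o[Filter.atTop] (fun L : ℝ => L ^ (5 / 32 : ℝ)) := by
        rw [Asymptotics.isLittleO_const_left]
        right
        exact tendsto_norm_atTop_atTop.comp (tendsto_rpow_atTop (by norm_num))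
      have e3 : (fun L : ℝ => 2 * (k * Real.log L)) =o[Filter.atTop]
          (fun L : ℝ => L ^ (5 / 32 : ℝ)) := by
        have := (isLittleO_log_rpow_atTop (r := 5 / 32) (by norm_num)).const_mul_left (2 * k : ℝ)
        refine this.congr_left (fun L => by ring)
      exact e2.add e3
    filter_upwards [e1.def hd, Filter.eventually_ge_atTop (1 : ℝ)] with L hL hL1
    have e4 : 0 ≤ L ^ (5 / 32 : ℝ) := by positivity
    rw [Real.norm_of_nonneg e4] at hL
    exact (le_abs_self _).trans hL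
  obtain ⟨L₀, hL₀⟩ := Filter.eventually_atTop.1 (h1.and h2)
  refine ⟨max L₀ 2, le_trans (by norm_num) (le_max_right _ _), ?_⟩
  intro L hL
  have hL0 : L₀ ≤ L := (le_max_left _ _).trans hL
  have hL2 : (2 : ℝ) ≤ L := (le_max_right _ _).trans hL
  obtain ⟨h3, h4⟩ := hL₀ L hL0
  have hlog : 0 ≤ Real.log L := Real.log_nonneg (by linarith)
  have h5 : 0 ≤ 1 + 2 * (k * Real.log L) := by positivity
  have h6 : (1 + 2 * (k * Real.log L)) ^ 2 ≤ ((1 / c) ^ (5 / 32 : ℝ) / 4 * L ^ (5 / 32 : ℝ)) ^ 2 :=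
    pow_le_pow_left₀ h5 h4 2
  have h7 : ((1 / c) ^ (5 / 32 : ℝ) / 4 * L ^ (5 / 32 : ℝ)) ^ 2 = (L / c) ^ (5 / 16 : ℝ) / 16 := by
    have e1 : ((1 / c) ^ (5 / 32 : ℝ)) ^ 2 = (1 / c) ^ (5 / 16 : ℝ) := by
      rw [← Real.rpow_natCast, ← Real.rpow_mul (by positivity)]
      norm_num
    have e2 : (L ^ (5 / 32 : ℝ)) ^ 2 = L ^ (5 / 16 : ℝ) := by
      rw [← Real.rpow_natCast, ← Real.rpow_mul (by linarith)]
      norm_num
    rw [mul_pow, div_pow, e1, e2, div_eq_mul_one_div L c, Real.mul_rpow (by linarith)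
      (by positivity)]
    ring
  have h8 : 2 / L * (L ^ (3 * k) / Real.exp (L / 2) + (1 + 3 * L)) ≤ 8 := by
    rw [div_mul_eq_mul_div, div_le_iff₀ (by linarith)]
    nlinarith
  have h9 : 0 ≤ 2 / L * (L ^ (3 * k) / Real.exp (L / 2) + (1 + 3 * L)) := by positivity
  have h10 : 0 ≤ (L / c) ^ (5 / 16 : ℝ) := by positivity
  calc 2 / L * (1 + 2 * (k * Real.log L)) ^ 2 * (L ^ (3 * k) / Real.exp (L / 2) + (1 + 3 * L))
      = (1 + 2 * (k * Real.log L)) ^ 2 *
        (2 / L * (L ^ (3 * k) / Real.exp (L / 2) + (1 + 3 * L))) := by ring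
    _ ≤ ((L / c) ^ (5 / 16 : ℝ) / 16) * 8 := by
        rw [← h7]
        exact mul_le_mul h6 h8 h9 (by positivity)
    _ ≤ (L / c) ^ (5 / 16 : ℝ) := by linarith

/-- APCORE. -/
theorem apcore (hU : UpwStmt) (hB : BtsumStmt) : ApcoreStmt := by
  obtain ⟨C₁, hC₁, hu⟩ := hU
  obtain ⟨C₂, hC₂, hb⟩ := hB
  refine ⟨1 + 2 * (C₂ * 3 * (C₁ * 3)), by positivity, ?_⟩
  intro W k hW
  have hlW : 0 < Real.log W := Real.log_pos (by exact_mod_cast (by omega : 1 < W))
  obtain ⟨L₀, hL₀1, hL₀⟩ := asym k (Real.log W) hlW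
  obtain ⟨Y₀, hY₀⟩ : ∃ Y₀ : ℕ, ∀ Y : ℕ, Y₀ ≤ Y → L₀ ≤ Real.log Y := by
    have := (Real.tendsto_log_atTop.comp tendsto_natCast_atTop_atTop).eventually
      (Filter.eventually_ge_atTop L₀)
    obtain ⟨Y₀, h⟩ := Filter.eventually_atTop.1 this
    exact ⟨Y₀, h⟩
  refine ⟨max Y₀ W, ?_⟩
  intro Y q a hY hq hqL hWq ha
  have hYW : W ≤ Y := (le_max_right _ _).trans hY
  have hY1 : 1 ≤ Y := by omega
  have hY' : (1 : ℝ) ≤ Y := by exact_mod_cast hY1
  set L := Real.log Y with hL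
  have hLL : L₀ ≤ L := hY₀ Y ((le_max_left _ _).trans hY)
  have hL1 : 1 ≤ L := hL₀1.trans hLL
  have hLpos : 0 < L := by linarith
  have hq' : (1 : ℝ) ≤ q := by exact_mod_cast hq
  have hqpos : (0 : ℝ) < q := by linarith
  have hphi : (0 : ℝ) < q.totient := by exact_mod_cast Nat.totient_pos.2 hq
  have hphiq : (q.totient : ℝ) ≤ q := by exact_mod_cast Nat.totient_le q
  have h1 := step1 (q := q) (a := a) hY1
  rw [← Finset.sum_filter_add_sum_filter_not (TY Y q a) (fun x => x.1 ≤ q ^ 2)] at h1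
  have h2 := part1 hY1 hq ha
  have h3 := part2 hC₁ hC₂ hu hb hW hYW hq hWq ha
  rw [← hL] at h1 h2 h3
  -- first part
  have hsq : Real.sqrt Y = Real.exp (L / 2) := by
    rw [hL, Real.sqrt_eq_rpow, Real.rpow_def_of_pos (by linarith)]
    congr 1
    ring
  have hlogq : 1 + Real.log ((q : ℝ) ^ 2) ≤ 1 + 2 * (k * Real.log L) := by
    rw [Real.log_pow]
    have e1 : Real.log q ≤ Real.log (L ^ k) := Real.log_le_log hqpos hqL
    rw [Real.log_pow] at e1
    push_cast
    linarith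
  have hlogq0 : 0 ≤ 1 + Real.log ((q : ℝ) ^ 2) := by
    have := Real.log_nonneg (show (1 : ℝ) ≤ (q : ℝ) ^ 2 from one_le_pow₀ hq')
    linarith
  have hA : 2 / L * ((1 + Real.log ((q : ℝ) ^ 2)) ^ 2 * ((q : ℝ) ^ 2 / Real.sqrt Y +
      (1 + 3 * L) / q)) ≤ (L / Real.log W) ^ (5 / 16 : ℝ) / q.totient := by
    have e1 : (1 + Real.log ((q : ℝ) ^ 2)) ^ 2 ≤ (1 + 2 * (k * Real.log L)) ^ 2 :=
      pow_le_pow_left₀ hlogq0 hlogq 2
    have e2 : (q : ℝ) ^ 2 / Real.sqrt Y + (1 + 3 * L) / q ≤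
        (L ^ (3 * k) / Real.exp (L / 2) + (1 + 3 * L)) / q := by
      rw [hsq, add_div (L ^ (3 * k) / Real.exp (L / 2))]
      refine add_le_add ?_ (le_refl _)
      rw [div_div, mul_comm (Real.exp _), ← div_div]
      refine div_le_div_of_nonneg_right ?_ (Real.exp_pos _).le
      rw [le_div_iff₀ hqpos]
      calc (q : ℝ) ^ 2 * q = (q : ℝ) ^ 3 := by ring
        _ ≤ (L ^ k) ^ 3 := pow_le_pow_left₀ hqpos.le hqL 3
        _ = L ^ (3 * k) := by rw [← pow_mul, mul_comm]
    have e3 : 0 ≤ (q : ℝ) ^ 2 / Real.sqrt Y + (1 + 3 * L) / q := by positivity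
    have e4 : 0 ≤ (1 + 2 * (k * Real.log L)) ^ 2 := by positivity
    calc 2 / L * ((1 + Real.log ((q : ℝ) ^ 2)) ^ 2 * ((q : ℝ) ^ 2 / Real.sqrt Y +
          (1 + 3 * L) / q))
        ≤ 2 / L * ((1 + 2 * (k * Real.log L)) ^ 2 *
          ((L ^ (3 * k) / Real.exp (L / 2) + (1 + 3 * L)) / q)) := by
          refine mul_le_mul_of_nonneg_left ?_ (by positivity)
          exact mul_le_mul e1 e2 e3 e4
      _ = (2 / L * (1 + 2 * (k * Real.log L)) ^ 2 *
          (L ^ (3 * k) / Real.exp (L / 2) + (1 + 3 * L))) / q := by ring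
      _ ≤ (L / Real.log W) ^ (5 / 16 : ℝ) / q :=
          div_le_div_of_nonneg_right (hL₀ L hLL) hqpos.le
      _ ≤ (L / Real.log W) ^ (5 / 16 : ℝ) / q.totient :=
          div_le_div_of_nonneg_left (by positivity) hphi hphiq
  -- second part
  have hB' : 2 / L * (C₂ * (3 * L) / q.totient *
      (C₁ * (3 * L / Real.log W) ^ (5 / 16 : ℝ))) ≤
      2 * (C₂ * 3 * (C₁ * 3)) * (L / Real.log W) ^ (5 / 16 : ℝ) / q.totient := by
    have e1 : (3 * L / Real.log W) ^ (5 / 16 : ℝ) ≤ 3 * (L / Real.log W) ^ (5 / 16 : ℝ) := by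
      rw [mul_div_assoc, Real.mul_rpow (by norm_num) (by positivity)]
      refine mul_le_mul_of_nonneg_right ?_ (by positivity)
      calc (3 : ℝ) ^ (5 / 16 : ℝ) ≤ 3 ^ (1 : ℝ) :=
            Real.rpow_le_rpow_of_exponent_le (by norm_num) (by norm_num)
        _ = 3 := Real.rpow_one 3
    calc 2 / L * (C₂ * (3 * L) / q.totient * (C₁ * (3 * L / Real.log W) ^ (5 / 16 : ℝ)))
        ≤ 2 / L * (C₂ * (3 * L) / q.totient * (C₁ * (3 * (L / Real.log W) ^ (5 / 16 : ℝ)))) := by
          refine mul_le_mul_of_nonneg_left ?_ (by positivity)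
          refine mul_le_mul_of_nonneg_left ?_ (by positivity)
          exact mul_le_mul_of_nonneg_left e1 hC₁.le
      _ = 2 * (C₂ * 3 * (C₁ * 3)) * (L / Real.log W) ^ (5 / 16 : ℝ) / q.totient := by
          field_simp
  have h4 : ∑ n ∈ SY Y q a, fw n ≤ 2 / L *
      ((1 + Real.log ((q : ℝ) ^ 2)) ^ 2 * ((q : ℝ) ^ 2 / Real.sqrt Y + (1 + 3 * L) / q)) +
      2 / L * (C₂ * (3 * L) / q.totient * (C₁ * (3 * L / Real.log W) ^ (5 / 16 : ℝ))) := by
    have e1 : L / 2 * ∑ n ∈ SY Y q a, fw n ≤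
        (1 + Real.log ((q : ℝ) ^ 2)) ^ 2 * ((q : ℝ) ^ 2 / Real.sqrt Y + (1 + 3 * L) / q) +
        (C₂ * (3 * L) / q.totient * (C₁ * (3 * L / Real.log W) ^ (5 / 16 : ℝ))) := by
      linarith
    have e2 : ∑ n ∈ SY Y q a, fw n = 2 / L * (L / 2 * ∑ n ∈ SY Y q a, fw n) := by
      field_simp
    rw [e2, ← mul_add]
    exact mul_le_mul_of_nonneg_left e1 (by positivity)
  have h5 : ∑ n ∈ SY Y q a, fw n ≤ (1 + 2 * (C₂ * 3 * (C₁ * 3))) *
      (L / Real.log W) ^ (5 / 16 : ℝ) / q.totient := by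
    refine h4.trans ((add_le_add hA hB').trans (le_of_eq ?_))
    ring
  exact h5

end Pool.Agent.Lib.MP_ba0fa5_ag.AA.H69
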